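import Pool.Agent.W_MP_7610c5_al.Main
import Pool.Agent.W_MP_7610c5_al.PlotkinF

universe u

namespace Pool.Agent.Results.MP_7610c5_al.PlotkinFinite

open Pool.Agent.W_MP_7610c5_al

/-- **Positive answer to Plotkin's problem.** For every `n ≥ 1` the number `f(n)` is finite: there
is a bound, depending only on `n`, for the `m` with `D_m(G) ≠ 1` for some group `G` which is
nilpotent of class exactly `n`. -/
theorem result (n : ℕ) (_hn : 1 ≤ n) : plotkinF.{u} n ≠ ⊤ := by
  obtain ⟨m₀, h⟩ := exists_bound.{u} n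
  have hle : plotkinF.{u} n ≤ (m₀ : ℕ∞) := by
    refine sSup_le ?_
    rintro _ ⟨m, rfl, _, G, _, hG, hne⟩
    by_contra hlt
    have hm : m₀ ≤ m := by
      have h1 : (m₀ : ℕ∞) < (m : ℕ∞) := not_le.1 hlt
      exact (Nat.cast_lt.1 h1).le
    refine hne (Set.eq_singleton_iff_unique_mem.2 ⟨?_, fun g hg => h hG.1 g (dimSet_anti hm hg)⟩)
    show MonoidAlgebra.of ℤ G 1 - 1 ∈ augIdeal ℤ G ^ m
    rw [map_one, sub_self]
    exact zero_mem _
  intro htop
  rw [htop, top_le_iff] at hle
  exact ENat.natCast_ne_top _ hle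

end Pool.Agent.Results.MP_7610c5_al.PlotkinFinite
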